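import Pool.Agent.H53.UK.Targets

/-!
MP_c62aed_lc, uniformly random `k`-CNFs, row CMB: from good candidates to all formulas.
-/

set_option autoImplicit false

namespace Pool.Agent.H47.UK

open Finset Pool.Agent.H53.UK

private theorem kc_ne {n k : ℕ} (h : k ≤ n) : Nonempty (KC n k) := by
  obtain ⟨A, -, hA⟩ := Finset.exists_subset_card_eq
    (show k ≤ (univ : Finset (Fin n)).card by simpa using h)
  exact ⟨(⟨A, hA⟩, fun _ => false)⟩

open Classical in
private theorem count {α β : Type} [Fintype α] [Finite β] (P : α → β → Prop) (G : α → Prop)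
    (c : ℕ) (h : ∀ a, G a → c * Nat.card {b : β // P a b} ≤ Nat.card β) :
    c * Nat.card {u : α × β // P u.1 u.2} ≤
      c * (Nat.card {a : α // ¬ G a} * Nat.card β) + Nat.card α * Nat.card β := by
  have h1 : Nat.card {u : α × β // P u.1 u.2} = ∑ a, Nat.card {b : β // P a b} := by
    rw [Nat.card_congr (Equiv.subtypeProdEquivSigmaSubtype P), Nat.card_sigma]
  have h2 : Nat.card {a : α // ¬ G a} = (univ.filter fun a => ¬ G a).card := by
    rw [Nat.card_eq_fintype_card, Fintype.card_subtype]
  have h3 : ∀ a, c * Nat.card {b : β // P a b} ≤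
      (if ¬ G a then c * Nat.card β else 0) + Nat.card β := by
    intro a
    by_cases hG : G a
    · rw [if_neg (not_not.mpr hG), zero_add]
      exact h a hG
    · rw [if_pos hG]
      have : Nat.card {b : β // P a b} ≤ Nat.card β :=
        Nat.card_le_card_of_injective _ Subtype.val_injective
      exact (Nat.mul_le_mul_left c this).trans (Nat.le_add_right _ _)
  calc c * Nat.card {u : α × β // P u.1 u.2} = ∑ a, c * Nat.card {b : β // P a b} := by
        rw [h1, mul_sum]
    _ ≤ ∑ a, ((if ¬ G a then c * Nat.card β else 0) + Nat.card β) := sum_le_sum fun a _ => h3 a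
    _ = c * (Nat.card {a : α // ¬ G a} * Nat.card β) + Nat.card α * Nat.card β := by
        rw [sum_add_distrib, ← sum_filter, sum_const, sum_const, h2, smul_eq_mul, smul_eq_mul,
          card_univ, Nat.card_eq_fintype_card (α := α)]
        ring

theorem pf_CMB (hTRU : T_TRU) : T_CMB := by
  intro n k m μ γ t s b w s₀ P hk hμ ht hB hF
  classical
  have : Nonempty (KC n k) := kc_ne hk
  have : Nonempty (Fin μ) := ⟨⟨0, hμ⟩⟩
  have hN : 0 < Nat.card (KCNF n k m) := Nat.card_pos
  have hK : 0 < Nat.card (Fin m × Fin μ → KC n k) := Nat.card_pos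
  have hR : 0 < Nat.card (Fin m → Fin μ) := Nat.card_pos
  have hT := hTRU (μ := μ) P
  have hc := fun c => count (fun (H : Fin m × Fin μ → KC n k) (r : Fin m → Fin μ) => P (FU H r))
    (fun H => H3 H w s₀) c
  generalize Nat.card {F : KCNF n k m // P F} = A at *
  generalize Nat.card (KCNF n k m) = N at *
  generalize Nat.card {u : (Fin m × Fin μ → KC n k) × (Fin m → Fin μ) // P (FU u.1 u.2)} = U at *
  generalize Nat.card {H : Fin m × Fin μ → KC n k // ¬ H3 H w s₀} = B at *
  generalize Nat.card (Fin m × Fin μ → KC n k) = K at *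
  generalize Nat.card (Fin m → Fin μ) = R at *
  have hp : 2 ^ (n + 2) ≤ 2 ^ (2 * n + 2) := Nat.pow_le_pow_right (by norm_num) (by omega)
  have hB2 : 2 ^ (n + 2) * B ≤ K := (Nat.mul_le_mul_right _ hp).trans hB
  have hKR : 0 < K * R := Nat.mul_pos hK hR
  constructor
  · intro h1 h2
    have h3 := hc (2 ^ (n + 2)) fun H hH => (hF H hH).1 h1 h2
    have h4 : 2 ^ (n + 2) * U ≤ 2 * (K * R) := by
      calc 2 ^ (n + 2) * U ≤ 2 ^ (n + 2) * (B * R) + K * R := h3
        _ = (2 ^ (n + 2) * B) * R + K * R := by ring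
        _ ≤ K * R + K * R := by gcongr
        _ = 2 * (K * R) := by ring
    have h5 : 2 * (2 ^ n * U) ≤ K * R := by
      have h6 : 2 ^ (n + 2) * U = 2 * (2 * (2 ^ n * U)) := by ring
      omega
    have h7 : 2 * ((2 ^ n * A) * (K * R)) ≤ N * (K * R) := by
      calc 2 * ((2 ^ n * A) * (K * R)) = 2 * 2 ^ n * (A * (K * R)) := by ring
        _ = 2 * 2 ^ n * (U * N) := by rw [hT]
        _ = (2 * (2 ^ n * U)) * N := by ring
        _ ≤ (K * R) * N := Nat.mul_le_mul_right _ h5
        _ = N * (K * R) := by ring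
    have h8 : 2 * (2 ^ n * A) ≤ N := by
      apply Nat.le_of_mul_le_mul_right _ hKR
      calc 2 * (2 ^ n * A) * (K * R) = 2 * ((2 ^ n * A) * (K * R)) := by ring
        _ ≤ N * (K * R) := h7
    omega
  · intro h1
    have h3 := hc (2 * t) fun H hH => by
      have := (hF H hH).2 h1
      calc 2 * t * Nat.card {r : Fin m → Fin μ // P (FU H r)} =
            2 * (t * Nat.card {r : Fin m → Fin μ // P (FU H r)}) := by ring
        _ ≤ R := this
    have ht2 : 2 * t ≤ 2 ^ (n + 2) := by
      calc 2 * t ≤ 2 * 2 ^ (n + 1) := Nat.mul_le_mul_left _ ht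
        _ = 2 ^ (n + 2) := by ring
    have h4 : 2 * (t * U) ≤ 2 * (K * R) := by
      calc 2 * (t * U) = 2 * t * U := by ring
        _ ≤ 2 * t * (B * R) + K * R := h3
        _ = (2 * t * B) * R + K * R := by ring
        _ ≤ (2 ^ (n + 2) * B) * R + K * R := by gcongr
        _ ≤ K * R + K * R := by gcongr
        _ = 2 * (K * R) := by ring
    have h5 : t * U ≤ K * R := by omega
    apply Nat.le_of_mul_le_mul_right _ hKR
    calc t * A * (K * R) = t * (A * (K * R)) := by ring
      _ = t * (U * N) := by rw [hT]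
      _ = (t * U) * N := by ring
      _ ≤ (K * R) * N := Nat.mul_le_mul_right _ h5
      _ = N * (K * R) := by ring

end Pool.Agent.H47.UK
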